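import Pool.Agent.Y197.LR.Stm

/-!
Real analysis: from the cross-ratio inequality to the exponential form (job LR-ANA).
-/

set_option autoImplicit false

namespace Pool.Agent.Y681.LR.Ana

open Filter Topology Pool.Agent.Y197.LR

lemma lim_ex {f ε : ℕ → ℝ} {w0 : ℕ} (hε : Tendsto ε atTop (𝓝 0))
    (h : ∀ w s : ℕ, w0 ≤ w → |f (w + s) - f w| ≤ ε w) : ∃ l, Tendsto f atTop (𝓝 l) := by
  have h1 : CauchySeq (fun n => f (n + w0)) := by
    refine cauchySeq_of_le_tendsto_0' (fun n => ε (n + w0)) ?_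
      ((tendsto_add_atTop_iff_nat w0).2 hε)
    intro n m hnm
    obtain ⟨s, rfl⟩ := Nat.exists_eq_add_of_le hnm
    rw [dist_comm, Real.dist_eq]
    have e : n + s + w0 = n + w0 + s := by omega
    rw [e]
    exact h (n + w0) s (by omega)
  obtain ⟨l, hl⟩ := cauchySeq_tendsto_of_complete h1
  exact ⟨l, (tendsto_add_atTop_iff_nat w0).1 hl⟩

lemma lim_le {f ε : ℕ → ℝ} {w0 : ℕ} (h : ∀ w s : ℕ, w0 ≤ w → |f (w + s) - f w| ≤ ε w) {l : ℝ}
    (hl : Tendsto f atTop (𝓝 l)) {w : ℕ} (hw : w0 ≤ w) : |f w - l| ≤ ε w := by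
  have h1 : Tendsto (fun s => |f (s + w) - f w|) atTop (𝓝 |l - f w|) :=
    (((tendsto_add_atTop_iff_nat w).2 hl).sub_const (f w)).abs
  rw [abs_sub_comm]
  refine le_of_tendsto' h1 fun s => ?_
  rw [Nat.add_comm]
  exact h w s hw

theorem main : S_ANA := by
  intro I o L w0 ε hε _ hsym H
  -- the diagonal values
  obtain ⟨D, hD⟩ : ∃ D : ℕ → ℕ → ℝ, ∀ s w, D s w = L (w + s) o o - L w o o := ⟨_, fun _ _ => rfl⟩
  have hDb : ∀ s w s', w0 ≤ w → |D s (w + s') - D s w| ≤ ε w := by
    intro s w s' hw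
    have h1 := H w s' s hw o o o o
    rw [hD, hD]
    have e : L (w + s' + s) o o - L (w + s') o o - (L (w + s) o o - L w o o) =
        L w o o + L (w + s' + s) o o - L (w + s') o o - L (w + s) o o := by ring
    rw [e]
    exact h1
  obtain ⟨δ, hδ⟩ := lim_ex hε (hDb 1)
  have hDs : ∀ s : ℕ, Tendsto (D s) atTop (𝓝 (s * δ)) := by
    intro s
    induction s with
    | zero =>
      have h1 : D 0 = fun _ => (0 : ℝ) := by
        funext w
        rw [hD, Nat.add_zero, sub_self]
      rw [h1, Nat.cast_zero, zero_mul]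
      exact tendsto_const_nhds
    | succ s ih =>
      have h1 : D (s + 1) = fun w => D s w + D 1 (w + s) := by
        funext w
        rw [hD, hD, hD]
        have e : w + (s + 1) = w + s + 1 := by omega
        rw [e]
        ring
      rw [h1]
      have h2 : ((s + 1 : ℕ) : ℝ) * δ = s * δ + δ := by
        push_cast
        ring
      rw [h2]
      exact ih.add ((tendsto_add_atTop_iff_nat s).2 hδ)
  -- the constant
  obtain ⟨χ, hχ⟩ : ∃ χ : ℕ → ℝ, ∀ w, χ w = L w o o - δ * w := ⟨_, fun _ => rfl⟩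
  have hχb : ∀ w s : ℕ, w0 ≤ w → |χ (w + s) - χ w| ≤ ε w := by
    intro w s hw
    have h1 := lim_le (hDb s) (hDs s) hw
    rw [hD] at h1
    rw [hχ, hχ]
    have e : L (w + s) o o - δ * ((w + s : ℕ) : ℝ) - (L w o o - δ * (w : ℝ)) =
        L (w + s) o o - L w o o - s * δ := by
      push_cast
      ring
    rw [e]
    exact h1
  obtain ⟨α, hα⟩ := lim_ex hε hχb
  -- the factors
  have hT : ∀ T : I, ∀ w s : ℕ, w0 ≤ w →
      |(L (w + s) T o - L (w + s) o o) - (L w T o - L w o o)| ≤ ε w := by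
    intro T w s hw
    have h1 := H w 0 s hw T o o o
    rw [Nat.add_zero] at h1
    rw [abs_sub_comm]
    have e : L w T o - L w o o - (L (w + s) T o - L (w + s) o o) =
        L w T o + L (w + s) o o - L w o o - L (w + s) T o := by ring
    rw [e]
    exact h1
  have hφ : ∀ T : I, ∃ l, Tendsto (fun w => L w T o - L w o o) atTop (𝓝 l) := fun T =>
    lim_ex hε (hT T)
  choose φ hφ using hφ
  refine ⟨α, -δ, φ, ?_, ?_⟩
  · refine tendsto_nhds_unique (hφ o) ?_
    have h1 : (fun w => L w o o - L w o o) = fun _ => (0 : ℝ) := by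
      funext w
      rw [sub_self]
    rw [h1]
    exact tendsto_const_nhds
  · intro w hw T S
    have a1 := lim_le hχb hα hw
    rw [hχ] at a1
    have a2 := lim_le (f := fun w => L w T o - L w o o) (hT T) (hφ T) hw
    have a3 := lim_le (f := fun w => L w S o - L w o o) (hT S) (hφ S) hw
    have a4 := H w 0 0 hw T o S o
    simp only [Nat.add_zero] at a4
    rw [hsym w o S] at a4
    rw [abs_le] at a1 a2 a3 a4 ⊢
    constructor
    · linarith [a1.1, a2.1, a3.1, a4.1]
    · linarith [a1.2, a2.2, a3.2, a4.2]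

end Pool.Agent.Y681.LR.Ana
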